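import Pool.Agent.H31.XCE.Targets

/-!
# Row DEX: decoupling in one octave
-/

set_option autoImplicit false

namespace Pool.Agent.H84.XCE

open Finset Filter Topology Pool.Agent.H31.XCE

/-- the weight -/
noncomputable def vv (m : ℕ) (p : ℕ) : ℂ := ((min 1 ((p : ℝ) / 2 ^ (m + 1)) : ℝ) : ℂ)

theorem vv_le (m p : ℕ) : ‖vv m p‖ ≤ 1 := by
  unfold vv
  rw [Complex.norm_real, Real.norm_of_nonneg (le_min zero_le_one (by positivity))]
  exact min_le_left _ _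

theorem B8_eq (K m S n : ℕ) (a b : ℤ) (α β : ℝ) (F G : ℤ → ℂ) :
    B8 K m S n a b α β F G = 2 ^ (m + 1) * B1 (oct m) S (K * 2 ^ m) n (vv m) a b α β F G := by
  unfold B8 B1
  rw [Finset.mul_sum]
  refine Finset.sum_congr rfl fun x _ => ?_
  rw [Finset.mul_sum]
  refine Finset.sum_congr rfl fun p hp => ?_
  unfold oct at hp
  rw [Finset.mem_filter, Finset.mem_Ioc] at hp
  have hp0 : (p : ℂ) ≠ 0 := by exact_mod_cast hp.2.ne_zero
  have h2 : (2 : ℂ) ^ (m + 1) ≠ 0 := pow_ne_zero _ two_ne_zero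
  have h1 : (p : ℝ) / 2 ^ (m + 1) ≤ 1 := by
    rw [div_le_one (by positivity)]
    exact_mod_cast hp.1.2
  have hv : vv m p = (p : ℂ) / 2 ^ (m + 1) := by
    unfold vv
    rw [min_eq_right h1]
    push_cast
    ring
  have hc : (2 : ℂ) ^ (m + 1) * (vv m p * ((cd p x : ℝ) : ℂ)) =
      (if p ∣ x then (p : ℂ) else 0) - 1 := by
    rw [hv]
    unfold cd
    by_cases hd : p ∣ x
    · rw [if_pos hd, if_pos (Int.natCast_dvd_natCast.2 hd)]
      push_cast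
      field_simp
    · rw [if_neg hd, if_neg (fun h => hd (Int.natCast_dvd_natCast.1 h))]
      push_cast
      field_simp
      ring
  rw [← hc]
  ring

theorem sum_mono' (X : ℕ) (p q : ℕ → Prop) [DecidablePred p] [DecidablePred q]
    (h : ∀ n, p n → q n) :
    ∑ n ∈ (Icc 1 X).filter p, 1 / (n : ℝ) ≤ ∑ n ∈ (Icc 1 X).filter q, 1 / (n : ℝ) := by
  refine Finset.sum_le_sum_of_subset_of_nonneg ?_ fun _ _ _ => by positivity
  intro n hn
  rw [Finset.mem_filter] at hn ⊢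
  exact ⟨hn.1, h n hn.2⟩

theorem pf_DEX (hK : T_K1L) (hO : T_OCT) : T_DEX := by
  classical
  intro ε J K hε hK2
  obtain ⟨C1, hC1, hk⟩ := hK (ε / 2) 2 J (by positivity)
  obtain ⟨m0, hm0⟩ := hO
  obtain ⟨C, hC⟩ : ∃ C : ℝ, C = m0 + K + 16 * C1 + (4 + 4 * C1) / ε + 4 := ⟨_, rfl⟩
  have hpos1 : 0 ≤ (4 + 4 * C1) / ε := by positivity
  have hm0' : (0 : ℝ) ≤ m0 := by positivity
  have hK0' : (0 : ℝ) ≤ K := by positivity
  refine ⟨C, by linarith, ?_⟩
  intro S m X hCm hS hSm hX hlog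
  have hCpos : (4 : ℝ) ≤ C := by linarith
  have hm4 : (4 : ℝ) ≤ m := by linarith
  have hmm0 : m0 ≤ m := by
    have : (m0 : ℝ) ≤ m := by linarith
    exact_mod_cast this
  have hmK : K ≤ m := by
    have : (K : ℝ) ≤ m := by linarith
    exact_mod_cast this
  obtain ⟨o1, o2, o3⟩ := hm0 m hmm0
  have hl2a := Real.log_two_gt_d9
  have hl2b := Real.log_two_lt_d9
  have hP : Real.log ((2 ^ (m + 1) : ℕ) : ℝ) = ((m : ℝ) + 1) * Real.log 2 := by
    push_cast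
    rw [Real.log_pow]
    push_cast
    ring
  have hPm : Real.log ((2 ^ (m + 1) : ℕ) : ℝ) ≤ 2 * m := by
    rw [hP]
    nlinarith
  have hP0 : 0 < Real.log ((2 ^ (m + 1) : ℕ) : ℝ) := by
    rw [hP]
    positivity
  have hm1 : (1 : ℝ) ≤ (m : ℝ) ^ 4 := one_le_pow₀ (by linarith)
  have hS4 : (4 : ℝ) ≤ S :=
    hCpos.trans ((le_mul_of_one_le_right (by linarith) hm1).trans hS)
  have hlS : 0 < Real.log S := Real.log_pos (by linarith)
  have hlSm : Real.log S ≤ m := by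
    have h1 : Real.log S ≤ Real.log ((2 : ℝ) ^ m) := by
      apply Real.log_le_log (by linarith)
      exact_mod_cast hSm
    rw [Real.log_pow] at h1
    nlinarith
  obtain ⟨t, ht⟩ : ∃ t, t = C1 * Real.log ((2 ^ (m + 1) : ℕ) : ℝ) ^ 2 / Real.log S := ⟨_, rfl⟩
  have ht0 : 0 ≤ t := by rw [ht]; positivity
  obtain ⟨L, hL⟩ : ∃ L, L = ⌈Real.exp t⌉₊ := ⟨_, rfl⟩
  have hL1 : Real.exp t ≤ L := by rw [hL]; exact Nat.le_ceil _
  have hexp1 : (1 : ℝ) ≤ Real.exp t := Real.one_le_exp ht0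
  have hL2 : (L : ℝ) ≤ 2 * Real.exp t := by
    have : (L : ℝ) < Real.exp t + 1 := by
      rw [hL]
      exact Nat.ceil_lt_add_one (by positivity)
    linarith
  have hlL1 : t ≤ Real.log L := by
    rw [← Real.log_exp t]
    exact Real.log_le_log (Real.exp_pos _) hL1
  have hlL2 : Real.log L ≤ t + 1 := by
    have h1 : Real.log L ≤ Real.log (2 * Real.exp t) :=
      Real.log_le_log (lt_of_lt_of_le (Real.exp_pos _) hL1) hL2
    rw [Real.log_mul (by norm_num) (Real.exp_pos _).ne', Real.log_exp] at h1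
    linarith
  have h2m : (m : ℝ) ≤ 2 ^ m := by exact_mod_cast Nat.lt_two_pow_self.le
  have hPC : (m : ℝ) ≤ ((2 ^ (m + 1) : ℕ) : ℝ) := by
    push_cast
    rw [pow_succ]
    linarith
  have hyp : Hyp C1 2 S (K * 2 ^ m) L (2 ^ (m + 1)) (oct m) := by
    refine ⟨?_, ?_, ?_, ?_, ?_, ?_, ?_⟩
    · linarith
    · intro p hp
      unfold oct at hp
      rw [Finset.mem_filter, Finset.mem_Ioc] at hp
      exact ⟨hp.2, lt_of_le_of_lt hSm hp.1.1, hp.1.2⟩
    · have h1 : Real.log ((2 ^ (m + 1) : ℕ) : ℝ) ^ 4 ≤ (2 * m) ^ 4 :=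
        pow_le_pow_left₀ hP0.le hPm 4
      calc C1 * Real.log ((2 ^ (m + 1) : ℕ) : ℝ) ^ 4 ≤ C1 * (2 * m) ^ 4 := by gcongr
        _ = 16 * C1 * (m : ℝ) ^ 4 := by ring
        _ ≤ C * (m : ℝ) ^ 4 := by
          apply mul_le_mul_of_nonneg_right _ (by positivity)
          linarith
        _ ≤ S := hS
    · push_cast
      exact o3
    · rw [pow_succ, mul_comm]
      exact Nat.mul_le_mul_right _ hK2
    · have h1 : K ≤ 2 ^ m := hmK.trans Nat.lt_two_pow_self.le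
      calc K * 2 ^ m ≤ 2 ^ m * 2 ^ m := Nat.mul_le_mul_right _ h1
        _ ≤ 2 ^ (m + 1) * 2 ^ (m + 1) := Nat.mul_le_mul (Nat.pow_le_pow_right (by norm_num)
            (by omega)) (Nat.pow_le_pow_right (by norm_num) (by omega))
        _ = (2 ^ (m + 1)) ^ 2 := by ring
    · have h1 : C1 * Real.log ((2 ^ (m + 1) : ℕ) : ℝ) ^ 2 = Real.log S * t := by
        rw [ht]
        field_simp
      rw [h1]
      exact mul_le_mul_of_nonneg_left hlL1 hlS.le
  have hmain := hk S (K * 2 ^ m) L (2 ^ (m + 1)) X (oct m) (vv m) hyp (vv_le m) hX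
  refine (sum_mono' X _ (fun n => Bad (ε / 2) J (oct m) S (K * 2 ^ m) (vv m) n) ?_).trans
    (hmain.trans ?_)
  · intro n hn
    obtain ⟨a, b, α, β, F, G, ha, hb, hF, hG, hbig⟩ := hn
    refine ⟨a, b, α, β, F, G, ha, hb, hF, hG, ?_⟩
    rw [B8_eq, norm_mul, norm_pow, Complex.norm_ofNat] at hbig
    have e1 : (2 : ℝ) ^ (m + 1) = 2 ^ m * 2 := pow_succ _ _
    have h2p : (0 : ℝ) < 2 ^ m := by positivity
    obtain ⟨Z, hZ⟩ : ∃ Z : ℝ, Z = ‖B1 (oct m) S (K * 2 ^ m) n (vv m) a b α β F G‖ := ⟨_, rfl⟩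
    rw [← hZ] at hbig ⊢
    have h3 : (ε * (oct m).card * K / 2) * 2 ^ m < Z * 2 ^ m := by
      rw [e1] at hbig
      nlinarith
    have h4 := lt_of_mul_lt_mul_right h3 h2p.le
    refine lt_of_le_of_lt ?_ h4
    have h5 : ((K * 2 ^ m : ℕ) : ℝ) * LL (oct m) ≤ K * (oct m).card := by
      rw [le_div_iff₀ h2p] at o2
      push_cast
      calc (K : ℝ) * 2 ^ m * LL (oct m) = K * (LL (oct m) * 2 ^ m) := by ring
        _ ≤ K * (oct m).card := mul_le_mul_of_nonneg_left o2 hK0'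
    calc ε / 2 * ((K * 2 ^ m : ℕ) : ℝ) * LL (oct m) = ε / 2 * (((K * 2 ^ m : ℕ) : ℝ) * LL (oct m)) := by
          ring
      _ ≤ ε / 2 * (K * (oct m).card) := mul_le_mul_of_nonneg_left h5 (by positivity)
      _ = ε * (oct m).card * K / 2 := by ring
  -- the sizes
  obtain ⟨lx, hlx⟩ : ∃ lx, lx = Real.log X := ⟨_, rfl⟩
  rw [← hlx] at hlog ⊢
  have hmpos : (0 : ℝ) < m := by linarith
  have hlx0 : 0 ≤ lx := by rw [hlx]; exact Real.log_natCast_nonneg X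
  have hlxm : C * m ≤ lx := by
    have h1 : C * (m : ℝ) ^ 2 ≤ m * lx := hlog.trans (mul_le_mul_of_nonneg_right hlSm hlx0)
    have h2 : m * (C * m) ≤ m * lx := (le_of_eq (by ring)).trans h1
    exact le_of_mul_le_mul_left h2 hmpos
  have hC0 : 0 < C := by linarith
  have ht2 : t ≤ 4 * C1 / C * lx := by
    rw [ht, div_le_iff₀ hlS]
    have h1 : Real.log ((2 ^ (m + 1) : ℕ) : ℝ) ^ 2 ≤ (2 * m) ^ 2 :=
      pow_le_pow_left₀ hP0.le hPm 2
    calc C1 * Real.log ((2 ^ (m + 1) : ℕ) : ℝ) ^ 2 ≤ C1 * (2 * m) ^ 2 := by gcongr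
      _ = 4 * C1 / C * (C * (m : ℝ) ^ 2) := by field_simp; ring
      _ ≤ 4 * C1 / C * (Real.log S * lx) := mul_le_mul_of_nonneg_left hlog (by positivity)
      _ = 4 * C1 / C * lx * Real.log S := by ring
  have hlxC : C ≤ lx := (le_mul_of_one_le_right hC0.le (by linarith)).trans hlxm
  have h2 : (2 : ℝ) ≤ 2 / C * lx := by
    rw [div_mul_eq_mul_div, le_div_iff₀ hC0]
    linarith
  have h3 : (1 + lx) / (((2 ^ (m + 1) : ℕ) : ℝ)) ^ 2 ≤ 2 / C * lx := by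
    have h4 : C ≤ (((2 ^ (m + 1) : ℕ) : ℝ)) ^ 2 := by
      have h5 : C ≤ ((2 ^ (m + 1) : ℕ) : ℝ) := hCm.trans hPC
      nlinarith
    rw [div_le_iff₀ (by positivity)]
    calc 1 + lx ≤ 2 * lx := by linarith
      _ = 2 / C * lx * C := by field_simp
      _ ≤ 2 / C * lx * (((2 ^ (m + 1) : ℕ) : ℝ)) ^ 2 :=
        mul_le_mul_of_nonneg_left h4 (by positivity)
  have h6 : (4 + 4 * C1) / C * lx ≤ ε * lx := by
    apply mul_le_mul_of_nonneg_right _ hlx0
    rw [div_le_iff₀ hC0]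
    have h7 : (4 + 4 * C1) / ε ≤ C := by linarith
    rw [div_le_iff₀ hε] at h7
    linarith
  have h8 : (4 + 4 * C1) / C * lx = 2 / C * lx + 4 * C1 / C * lx + 2 / C * lx := by ring
  push_cast at h3 ⊢
  linarith

end Pool.Agent.H84.XCE
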